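import Pool.Agent.W550.Murre.DMain

/-!
# Murre's conjecture (D): one decomposition of one product suffices

`C` are the Chow groups (with rational coefficients), `H` is a Weil cohomology theory, and
`IsCK H X π` says that `π 0, π 1, ..., π (2 dim X)` is a Chow-Kunneth decomposition of `X`.
-/

open CategoryTheory AlgebraicGeometry

universe u v w

namespace Pool.Agent.Results.MP_583472_ag.OneDecomposition

open Pool.Agent.H914 Pool.Agent.H914.VarClass Pool.Agent.H914.VarClass.Obj Pool.Agent.W492.BB
  Pool.Agent.W550.Corr Pool.Agent.W550.Murre

variable {k : Type u} [Field k] {𝒱 : VarClass k} {C : TheoryData.{u, v, 0} 𝒱 ℚ} {K : Type w}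
  [Field K]

theorem result (H : WeilTheoryData.{u, v, w} C K) [IsChow C] [IsWeil H] (hS : IsStandard H) :
    -- let `π` be a Chow-Kunneth decomposition of `Y` such that (D) holds for the product
    -- decomposition of `Y × Y` in codimension `dim Y`; then every retract `X` of `Y` (for example
    -- `X = Y`, or `X` dominated by `Y`) has a Chow-Kunneth decomposition, and every one of them
    -- satisfies (D) and `F^0 = CH` in all codimensions, and they all induce the same filtrations
    (∀ (X Y : 𝒱.Obj) (π : ℕ → C.A (Y.prod Y)), IsCK H Y π → DSquare H π → IsRetract C X Y →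
      Good H X) ∧
    -- the same for the weaker hypothesis that homologically trivial correspondences of degree
    -- zero from `Y` to `Y` are strictly triangular with respect to `π`
    (∀ (X Y : 𝒱.Obj) (π : ℕ → C.A (Y.prod Y)), IsCK H Y π → Strict H π → IsRetract C X Y →
      Good H X) ∧
    -- (D) for all varieties is equivalent to strict triangularity, for one decomposition of each
    -- variety which has one, and implies independence for all varieties
    [DAll H, StrictSome H, StrictAll H].TFAE ∧
    (DAll H → ∀ X : 𝒱.Obj, Independent H X ∧ (HasDec H X → Good H X)) := by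
  have hI : HasIso C := hasIso_of_std H hS
  refine ⟨fun X Y π hπ hD hXY => ?_, fun X Y π hπ hst hXY => ?_, d_tfae hS, fun h X => ?_⟩
  · obtain ⟨ρ, hρ, h1⟩ := (strict_of_square hπ hD).retract hπ hXY
    exact good_of_strict hρ h1
  · obtain ⟨ρ, hρ, h1⟩ := hst.retract hπ hXY
    exact good_of_strict hρ h1
  · have h2 : StrictSome H := ((d_tfae hS).out 0 1).1 h
    have h3 : HasDec H X → Good H X := by
      intro hX
      obtain ⟨ρ, hρ, h1⟩ := h2 X hX
      exact good_of_strict hρ h1
    refine ⟨fun π π' hπ hπ' => ?_, h3⟩
    exact (h3 ⟨π, hπ⟩).indep π π' hπ hπ'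

end Pool.Agent.Results.MP_583472_ag.OneDecomposition
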